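import Pool.Agent.Helper82.SG.St

set_option autoImplicit false

namespace Pool.Agent.Helper55.SG

open Finset Real MeasureTheory Pool.Agent.Helper77.Steiner Pool.Agent.Helper82.SG
open Pool.Agent.Helper18.GP (nlen NConn)
open scoped ENNReal

private lemma norm_le_of_coord {d : ℕ} (u v : EuclideanSpace ℝ (Fin d))
    (h : ∀ i, |u i| ≤ |v i|) : ‖u‖ ≤ ‖v‖ := by
  rw [EuclideanSpace.norm_eq, EuclideanSpace.norm_eq]
  apply Real.sqrt_le_sqrt
  apply Finset.sum_le_sum
  intro i _
  rw [Real.norm_eq_abs, Real.norm_eq_abs]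
  exact pow_le_pow_left₀ (abs_nonneg _) (h i) 2

private lemma norm_le_sqrt {d : ℕ} (u : EuclideanSpace ℝ (Fin d))
    (h : ∀ i, |u i| ≤ 1) : ‖u‖ ≤ √d := by
  rw [EuclideanSpace.norm_eq]
  apply Real.sqrt_le_sqrt
  calc ∑ i, ‖u i‖ ^ 2 ≤ ∑ _i : Fin d, (1 : ℝ) := by
        apply Finset.sum_le_sum
        intro i _
        rw [Real.norm_eq_abs]
        exact pow_le_one₀ (abs_nonneg _) (h i)
    _ = d := by simp

private lemma floor_half {a : ℝ} (ha : 0 ≤ a) : |((⌊a + 1 / 2⌋₊ : ℕ) : ℝ) - a| ≤ 1 / 2 := by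
  have h1 : ((⌊a + 1 / 2⌋₊ : ℕ) : ℝ) ≤ a + 1 / 2 := Nat.floor_le (by positivity)
  have h2 : a + 1 / 2 < ((⌊a + 1 / 2⌋₊ : ℕ) : ℝ) + 1 := Nat.lt_floor_add_one _
  rw [abs_le]
  constructor <;> linarith

private lemma clamp_lip (Δ a b : ℝ) : |max 0 (min a Δ) - max 0 (min b Δ)| ≤ |a - b| := by
  calc |max 0 (min a Δ) - max 0 (min b Δ)| ≤ max |(0 : ℝ) - 0| |min a Δ - min b Δ| :=
        abs_max_sub_max_le_max _ _ _ _
    _ ≤ |min a Δ - min b Δ| := by
        apply max_le _ le_rfl
        rw [sub_self, abs_zero]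
        exact abs_nonneg _
    _ ≤ max |a - b| |Δ - Δ| := abs_min_sub_min_le_max _ _ _ _
    _ ≤ |a - b| := by
        apply max_le le_rfl
        rw [sub_self, abs_zero]
        exact abs_nonneg _

theorem hRND : StRND := by
  intro d M A Δ hA hΔ hM hD
  classical
  have hs : 0 ≤ (M : ℝ) / Δ := by positivity
  set s : ℝ := (M : ℝ) / Δ with hsdef
  set o : Fin d → ℝ := fun i => A.inf' hA (fun x => x i) with ho
  set cl : EuclideanSpace ℝ (Fin d) → Fin d → ℝ := fun z i => max 0 (min (z i - o i) Δ) with hcl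
  have hcl0 : ∀ z i, 0 ≤ cl z i := fun z i => le_max_left _ _
  have hcl1 : ∀ z i, cl z i ≤ Δ := fun z i => max_le hΔ.le (min_le_right _ _)
  set u : EuclideanSpace ℝ (Fin d) → EuclideanSpace ℝ (Fin d) :=
    fun z => WithLp.toLp 2 fun i => s * cl z i with hu
  set f : EuclideanSpace ℝ (Fin d) → EuclideanSpace ℝ (Fin d) :=
    fun z => WithLp.toLp 2 fun i => ((⌊s * cl z i + 1 / 2⌋₊ : ℕ) : ℝ) with hf
  have hui : ∀ z i, (u z) i = s * cl z i := fun z i => rfl
  have hfi : ∀ z i, (f z) i = ((⌊s * cl z i + 1 / 2⌋₊ : ℕ) : ℝ) := fun z i => rfl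
  have herr : ∀ z w, ‖(f z - f w) - (u z - u w)‖ ≤ √d := by
    intro z w
    apply norm_le_sqrt
    intro i
    have e1 := floor_half (mul_nonneg hs (hcl0 z i))
    have e2 := floor_half (mul_nonneg hs (hcl0 w i))
    have : ((f z - f w) - (u z - u w)) i =
        (((⌊s * cl z i + 1 / 2⌋₊ : ℕ) : ℝ) - s * cl z i) -
          (((⌊s * cl w i + 1 / 2⌋₊ : ℕ) : ℝ) - s * cl w i) := by
      simp only [PiLp.sub_apply, hfi, hui]
      ring
    rw [this]
    calc _ ≤ _ := abs_sub _ _
      _ ≤ 1 / 2 + 1 / 2 := add_le_add e1 e2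
      _ = 1 := by norm_num
  refine ⟨f, ?_, ?_, ?_⟩
  · intro z
    unfold grid
    rw [Finset.mem_image]
    refine ⟨fun i => ⌊s * cl z i + 1 / 2⌋₊, ?_, rfl⟩
    rw [Fintype.mem_piFinset]
    intro i
    rw [Finset.mem_range, Nat.lt_succ_iff]
    have h1 : s * cl z i ≤ M := by
      calc s * cl z i ≤ s * Δ := mul_le_mul_of_nonneg_left (hcl1 z i) hs
        _ = M := by rw [hsdef]; field_simp
    have h2 : ⌊s * cl z i + 1 / 2⌋₊ < M + 1 := by
      rw [Nat.floor_lt (by have := mul_nonneg hs (hcl0 z i); positivity)]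
      push_cast
      linarith
    omega
  · intro z w
    have h1 : ‖u z - u w‖ ≤ s * dist z w := by
      have : ‖u z - u w‖ ≤ ‖s • (z - w)‖ := by
        apply norm_le_of_coord
        intro i
        rw [PiLp.smul_apply, PiLp.sub_apply, PiLp.sub_apply, hui, hui, ← mul_sub, smul_eq_mul,
          abs_mul, abs_mul]
        apply mul_le_mul_of_nonneg_left _ (abs_nonneg _)
        have := clamp_lip Δ (z i - o i) (w i - o i)
        have e : z i - o i - (w i - o i) = z i - w i := by ring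
        rw [e] at this
        exact this
      rw [norm_smul, Real.norm_eq_abs, abs_of_nonneg hs, ← dist_eq_norm] at this
      exact this
    have h2 := herr z w
    have h3 : ‖f z - f w‖ ≤ ‖u z - u w‖ + ‖(f z - f w) - (u z - u w)‖ := by
      have : f z - f w = (u z - u w) + ((f z - f w) - (u z - u w)) := by abel
      calc ‖f z - f w‖ = ‖(u z - u w) + ((f z - f w) - (u z - u w))‖ := by rw [← this]
        _ ≤ _ := norm_add_le _ _
    rw [dist_eq_norm (f z) (f w)]
    linarith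
  · intro z hz w hw
    have hid : ∀ y ∈ A, ∀ i, cl y i = y i - o i := by
      intro y hy i
      have h1 : o i ≤ y i := Finset.inf'_le (fun x : EuclideanSpace ℝ (Fin d) => x i) hy
      obtain ⟨y', hy', he⟩ := Finset.exists_mem_eq_inf' hA (fun x : EuclideanSpace ℝ (Fin d) => x i)
      have h2 : y i - o i ≤ Δ := by
        have e : o i = y' i := he
        rw [e]
        calc y i - y' i ≤ |(y - y') i| := by rw [PiLp.sub_apply]; exact le_abs_self _
          _ = ‖(y - y') i‖ := (Real.norm_eq_abs _).symm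
          _ ≤ ‖y - y'‖ := PiLp.norm_apply_le _ _
          _ = dist y y' := (dist_eq_norm _ _).symm
          _ ≤ Δ := hD y hy y' hy'
      simp only [hcl]
      rw [min_eq_left h2, max_eq_right (by linarith)]
    have h1 : u z - u w = s • (z - w) := by
      ext i
      rw [PiLp.smul_apply, PiLp.sub_apply, PiLp.sub_apply, hui, hui, hid z hz, hid w hw,
        smul_eq_mul]
      ring
    have h2 := herr z w
    have h3 : ‖u z - u w‖ ≤ ‖f z - f w‖ + ‖(f z - f w) - (u z - u w)‖ := by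
      have : u z - u w = (f z - f w) - ((f z - f w) - (u z - u w)) := by abel
      calc ‖u z - u w‖ = ‖(f z - f w) - ((f z - f w) - (u z - u w))‖ := by rw [← this]
        _ ≤ _ := norm_sub_le _ _
    rw [h1] at h3
    rw [norm_smul, Real.norm_eq_abs, abs_of_nonneg hs, ← dist_eq_norm z w, ← dist_eq_norm (f z) (f w)] at h3
    rw [h1] at h2
    linarith

end Pool.Agent.Helper55.SG
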